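import Pool.Agent.V113.Lech.Main

/-!
# The Lech–Mumford constant of a power series ring is approached by deep ideals

Question Q1 of MP_57f84f_al has a positive answer, and `L_N(R) = LM(R[[T]])` for every `N`.
The definitions are in `Pool/Agent/V113/Lech/Defs.lean`.

Proof. For an ideal `J` of `S = R[[T]]` and `v ≥ 1` let `J_v` be the ideal generated by the
`f(T^v)`, `f ∈ J`; since `S` is free of rank `v` over the image of `T ↦ T^v`, one has
`ℓ(S/J_v^n) = v ℓ(S/J^n)`, so `e(J_v) = v e(J)`. Put `I = J_v ∩ (m, T)^N`. Then `e(I) ≥ v e(J)` and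
`ℓ(S/I) ≤ v ℓ(S/J) + ℓ(S/(m, T)^N)`, and `v → ∞` gives the claim.
-/

set_option autoImplicit false

open Filter ENNReal PowerSeries Pool.Agent.V113.Lech

namespace Pool.Agent.Results.MP_57f84f_al.DeepIdeals

universe u

/-- For every Noetherian local ring `R`, `LM(R[[T]]) = lim_{N → ∞} L_N(R)`; in fact
`L_N(R) = LM(R[[T]])` for all `N`. -/
theorem result :
    ∀ (R : Type u) [CommRing R] [IsNoetherianRing R] [IsLocalRing R],
      Tendsto (fun N : ℕ => LN R N) atTop (nhds (LM R⟦X⟧)) ∧ ∀ N : ℕ, LN R N = LM R⟦X⟧ := by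
  intro R _ _ _
  refine ⟨?_, LN_eq⟩
  simp only [LN_eq]
  exact tendsto_const_nhds

end Pool.Agent.Results.MP_57f84f_al.DeepIdeals
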